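import Pool.Agent.H45.Nev.Stmts
import Pool.Agent.H95.Nev.Form

/-!
# Leaf discs are discs of the lamination
-/

open MeasureTheory Set Metric Filter Topology
open scoped ContDiff Manifold

namespace Pool.Agent.H82.Nev
open Pool.Agent.H45.Nev Pool.Agent.H95.Nev

variable {E : Type*} [NormedAddCommGroup E] [NormedSpace ℂ E]
  {M : Type*} [TopologicalSpace M] [ChartedSpace E M]

/-- the velocity of a holomorphic curve, without dependent types -/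
noncomputable def md (φ : ℂ → M) (ξ : ℂ) : E := mfderiv 𝓘(ℂ, ℂ) 𝓘(ℂ, E) φ ξ (1 : ℂ)

/-- tangency without dependent types -/
def Tan (F : SingFoliation E M) (x : M) (v : E) : Prop := F.Tangent x v

/-- the generators, without dependent types -/
noncomputable def Xe (F : SingFoliation E M) (i : F.ι) (x : M) : E := F.X i x

lemma tan_iff (F : SingFoliation E M) {x : M} {v : E} :
    Tan F x v ↔ ∃ i, x ∈ F.U i ∧ ∃ c : ℂ, v = c • Xe F i x := Iff.rfl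

lemma Xe_eq (F : SingFoliation E M) (i j : F.ι) {x : M} (hx : x ∈ F.U i ∩ F.U j) :
    Xe F i x = F.g i j x • Xe F j x := F.X_eq i j x hx

lemma tan_ratio (F : SingFoliation E M) {x : M} {v w : E} (hv : Tan F x v) (hv0 : v ≠ 0)
    (hw : Tan F x w) : ∃ c : ℂ, w = c • v := by
  obtain ⟨i, hi, a, ha⟩ := (tan_iff F).1 hv
  obtain ⟨j, hj, b, hb⟩ := (tan_iff F).1 hw
  have hX := Xe_eq F j i ⟨hj, hi⟩
  have ha0 : a ≠ 0 := by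
    rintro rfl
    exact hv0 (ha.trans (zero_smul ℂ _))
  refine ⟨b * F.g j i x * a⁻¹, ?_⟩
  rw [hb, hX, ha, smul_smul, smul_smul]
  congr 1
  field_simp

lemma tan_smul (F : SingFoliation E M) {x : M} {v : E} (hv : Tan F x v) (c : ℂ) :
    Tan F x (c • v) := by
  obtain ⟨i, hi, a, ha⟩ := (tan_iff F).1 hv
  exact (tan_iff F).2 ⟨i, hi, c * a, by rw [ha, smul_smul]⟩

lemma md_comp {φ : ℂ → M} {g : ℂ → ℂ} {ξ : ℂ}
    (hφ : MDifferentiableAt 𝓘(ℂ, ℂ) 𝓘(ℂ, E) φ (g ξ)) (hg : DifferentiableAt ℂ g ξ) :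
    (md (fun z => φ (g z)) ξ : E) = deriv g ξ • (md φ (g ξ) : E) := by
  have h := mfderiv_comp ξ hφ hg.mdifferentiableAt
  have h1 : (mfderiv 𝓘(ℂ, ℂ) 𝓘(ℂ, E) (φ ∘ g) ξ : ℂ →L[ℂ] E) (1 : ℂ) =
      (mfderiv 𝓘(ℂ, ℂ) 𝓘(ℂ, E) φ (g ξ) : ℂ →L[ℂ] E)
        ((mfderiv 𝓘(ℂ, ℂ) 𝓘(ℂ, ℂ) g ξ : ℂ →L[ℂ] ℂ) (1 : ℂ)) :=
    congrArg (fun L : ℂ →L[ℂ] E => L 1) h
  rw [mfderiv_eq_fderiv] at h1
  have h2 : (fderiv ℂ g ξ : ℂ →L[ℂ] ℂ) (1 : ℂ) = deriv g ξ • (1 : ℂ) := by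
    simp [fderiv_eq_smul_deriv]
  have h3 : (mfderiv 𝓘(ℂ, ℂ) 𝓘(ℂ, E) φ (g ξ) : ℂ →L[ℂ] E) (deriv g ξ • (1 : ℂ)) =
      deriv g ξ • (mfderiv 𝓘(ℂ, ℂ) 𝓘(ℂ, E) φ (g ξ) : ℂ →L[ℂ] E) (1 : ℂ) := map_smul _ _ _
  exact h1.trans ((congrArg _ h2).trans h3)

lemma md_congr {φ ψ : ℂ → M} {ξ : ℂ} (h : φ =ᶠ[𝓝 ξ] ψ) : (md φ ξ : E) = md ψ ξ := by
  have h1 := h.mfderiv_eq (I := 𝓘(ℂ, ℂ)) (I' := 𝓘(ℂ, E))
  exact congrArg (fun L : ℂ →L[ℂ] E => L 1) h1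

lemma D_md {e : OpenPartialHomeomorph M E} [IsManifold 𝓘(ℂ, E) ω M]
    (he : e ∈ IsManifold.maximalAtlas 𝓘(ℂ, E) ω M)
    {φ : ℂ → M} {ξ : ℂ} (hφ : MDifferentiableAt 𝓘(ℂ, ℂ) 𝓘(ℂ, E) φ ξ) (hx : φ ξ ∈ e.source) :
    D e (φ ξ) (md φ ξ) = deriv (e ∘ φ) ξ := by
  have h2 : MDifferentiableAt 𝓘(ℂ, E) 𝓘(ℂ, E) e (φ ξ) :=
    (mdiff_of_mem he).mdifferentiableAt hx
  have h3 := mfderiv_comp ξ h2 hφ
  rw [mfderiv_eq_fderiv] at h3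
  have h4 : (fderiv ℂ (e ∘ φ) ξ : ℂ →L[ℂ] E) 1 = D e (φ ξ) (md φ ξ) :=
    congrArg (fun L : ℂ →L[ℂ] E => L 1) h3
  rw [← h4]
  rfl


variable [IsManifold 𝓘(ℂ, E) ω M]

/-- a leafwise curve in a flow box: the derivative of its coordinates -/
lemma box_deriv (F : SingFoliation E M) (κ : Form11 E M)
    {m : ℕ} (Λ : Lam M (Fin m → ℂ)) (hΛ : GoodBoxes F κ Λ) (i : Λ.ι) {φ : ℂ → M} {ζ : ℂ}
    (hφ : MDifferentiableAt 𝓘(ℂ, ℂ) 𝓘(ℂ, E) φ ζ) (hT : Tan F (φ ζ) (md φ ζ : E))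
    (hx : φ ζ ∈ (Λ.box i).source) :
    ∃ l : ℂ, (md φ ζ : E) = l • (md (fun z => (Λ.box i).symm (z, (Λ.box i (φ ζ)).2))
        (Λ.box i (φ ζ)).1 : E) ∧
      HasDerivAt (fun ζ => (Λ.box i (φ ζ)).1) l ζ ∧
      HasFDerivAt (𝕜 := ℝ) (fun ζ => (Λ.box i (φ ζ)).2) (0 : ℂ →L[ℝ] (Fin m → ℂ)) ζ := by
  have hreal := isManifold_real (E := E) (M := M)
  set b := Λ.box i with hb
  set p := b (φ ζ) with hp
  have hpt : p ∈ b.target := b.map_source hx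
  have hpt' : p.1 ∈ ball (0 : ℂ) 1 ∧ p.2 ∈ Λ.W i := by
    have : p ∈ ball (0 : ℂ) 1 ×ˢ Λ.W i := by rw [← Λ.target_eq i]; exact hpt
    exact this
  set q : ℂ → M := fun z => b.symm (z, p.2) with hq
  obtain ⟨hq1, hq2, hq3, -⟩ := hΛ.plaque i p.2 hpt'.2 p.1 hpt'.1
  have hqx : q p.1 = φ ζ := b.left_inv hx
  have hq2' : Tan F (q p.1) (md q p.1 : E) := hq2
  rw [hqx] at hq2'
  have hq3' : (md q p.1 : E) ≠ 0 := hq3
  obtain ⟨l, hl⟩ := tan_ratio F hq2' hq3' hT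
  refine ⟨l, hl, ?_⟩
  set e := chartAt E (φ ζ) with he
  have hem : e ∈ IsManifold.maximalAtlas 𝓘(ℂ, E) ω M := chartAt_mem_max _
  have hxe : φ ζ ∈ e.source := mem_chart_source E _
  have hqe : q p.1 ∈ e.source := by rw [hqx]; exact hxe
  have h1 : D e (φ ζ) (md φ ζ) = deriv (e ∘ φ) ζ := D_md hem hφ hxe
  have h2 : D e (q p.1) (md q p.1) = deriv (e ∘ q) p.1 := D_md hem hq1 hqe
  rw [hqx] at h2
  have h3 : deriv (e ∘ φ) ζ = l • deriv (e ∘ q) p.1 := by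
    rw [← h1, ← h2, hl, map_smul]
  -- real differentiability of the box in the chart
  have hG : DifferentiableAt ℝ (b ∘ e.symm) (e (φ ζ)) := by
    have hs1 : ContMDiffAt 𝓘(ℝ, E) 𝓘(ℝ, E) ∞ e.symm (e (φ ζ)) :=
      (contMDiffOn_symm_of_mem_maximalAtlas (mem_maximalAtlas_real hem)).contMDiffAt
        (e.open_target.mem_nhds (e.map_source hxe))
    have hs2 : ContMDiffAt 𝓘(ℝ, E) 𝓘(ℝ, ℂ × (Fin m → ℂ)) ∞ b (e.symm (e (φ ζ))) := by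
      rw [e.left_inv hxe]
      exact (hΛ.smooth i).contMDiffAt (b.open_source.mem_nhds hx)
    have hs3 := (hs2.comp _ hs1).contDiffAt
    exact hs3.differentiableAt (by simp)
  have hf : HasFDerivAt (e ∘ φ) (fderiv ℂ (e ∘ φ) ζ) ζ :=
    ((((mdiff_of_mem hem).mdifferentiableAt hxe).comp ζ hφ).differentiableAt).hasFDerivAt
  have hg : HasFDerivAt (e ∘ q) (fderiv ℂ (e ∘ q) p.1) p.1 :=
    ((((mdiff_of_mem hem).mdifferentiableAt hqe).comp p.1 hq1).differentiableAt).hasFDerivAt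
  set G' := fderiv ℝ (b ∘ e.symm) (e (φ ζ)) with hG'
  have hGg : G'.comp ((fderiv ℂ (e ∘ q) p.1).restrictScalars ℝ) =
      ContinuousLinearMap.inl ℝ ℂ (Fin m → ℂ) := by
    have hGd : HasFDerivAt (b ∘ e.symm) G' ((e ∘ q) p.1) := by
      have : (e ∘ q) p.1 = e (φ ζ) := by simp [hqx]
      rw [this]
      exact hG.hasFDerivAt
    have hc := hGd.comp p.1 (hg.restrictScalars ℝ)
    have hcont : ContinuousAt q p.1 := hq1.continuousAt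
    have hev : ((b ∘ e.symm) ∘ (e ∘ q)) =ᶠ[𝓝 p.1] fun z => (z, p.2) := by
      filter_upwards [hcont.preimage_mem_nhds (e.open_source.mem_nhds hqe),
        isOpen_ball.mem_nhds hpt'.1] with z hz hz1
      simp only [Function.comp_apply]
      rw [e.left_inv hz]
      exact b.right_inv (by rw [hb, Λ.target_eq]; exact ⟨hz1, hpt'.2⟩)
    have hi : HasFDerivAt (fun z : ℂ => (z, p.2)) (ContinuousLinearMap.inl ℝ ℂ (Fin m → ℂ)) p.1 :=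
      hasFDerivAt_prodMk_left p.1 p.2
    exact hc.unique (hi.congr_of_eventuallyEq hev)
  have hcomp : HasFDerivAt (fun ζ => b (φ ζ))
      (G'.comp ((fderiv ℂ (e ∘ φ) ζ).restrictScalars ℝ)) ζ := by
    have hc := (hG.hasFDerivAt.comp ζ (hf.restrictScalars ℝ))
    refine hc.congr_of_eventuallyEq ?_
    filter_upwards [hφ.continuousAt.preimage_mem_nhds (e.open_source.mem_nhds hxe)] with z hz
    simp only [Function.comp_apply]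
    rw [e.left_inv hz]
  have hval : ∀ c : ℂ, G' (c • deriv (e ∘ φ) ζ) = (c * l, 0) := by
    intro c
    have e1 : c • deriv (e ∘ φ) ζ = fderiv ℂ (e ∘ q) p.1 (c * l) := by
      rw [fderiv_eq_smul_deriv, h3, smul_smul]
    rw [e1]
    have := congrArg (fun L : ℂ →L[ℝ] ℂ × (Fin m → ℂ) => L (c * l)) hGg
    simpa using this
  constructor
  · have hfst := (ContinuousLinearMap.fst ℝ ℂ (Fin m → ℂ)).hasFDerivAt.comp ζ hcomp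
    have : HasFDerivAt (𝕜 := ℂ) (fun ζ => (b (φ ζ)).1)
        (ContinuousLinearMap.toSpanSingleton ℂ l) ζ := by
      refine hasFDerivAt_of_restrictScalars ℝ hfst ?_
      ext c
      simp [hval]
    exact hasDerivAt_iff_hasFDerivAt.2 this
  · have hsnd := (ContinuousLinearMap.snd ℝ ℂ (Fin m → ℂ)).hasFDerivAt.comp ζ hcomp
    have h0 : (ContinuousLinearMap.snd ℝ ℂ (Fin m → ℂ)).comp
        (G'.comp ((fderiv ℂ (e ∘ φ) ζ).restrictScalars ℝ)) = 0 := by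
      ext c
      simp [hval]
    rw [h0] at hsnd
    exact hsnd


/-- near each point, a leafwise curve is a holomorphic curve in a plaque -/
lemma curve_in_plaque (F : SingFoliation E M) (κ : Form11 E M)
    {m : ℕ} (Λ : Lam M (Fin m → ℂ)) (hΛ : GoodBoxes F κ Λ) (i : Λ.ι) {φ : ℂ → M} {ξ : ℂ}
    (hφ : ∀ᶠ ζ in 𝓝 ξ, MDifferentiableAt 𝓘(ℂ, ℂ) 𝓘(ℂ, E) φ ζ)
    (hT : ∀ᶠ ζ in 𝓝 ξ, Tan F (φ ζ) (md φ ζ : E))
    (hx : φ ξ ∈ (Λ.box i).source) :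
    AnalyticAt ℂ (fun ζ => (Λ.box i (φ ζ)).1) ξ ∧
    ∀ᶠ ζ in 𝓝 ξ, φ ζ ∈ (Λ.box i).source ∧ (Λ.box i (φ ζ)).2 = (Λ.box i (φ ξ)).2 ∧
      (md φ ζ : E) = deriv (fun ζ => (Λ.box i (φ ζ)).1) ζ •
        (md (fun z => (Λ.box i).symm (z, (Λ.box i (φ ξ)).2)) (Λ.box i (φ ζ)).1 : E) := by
  have hc : ContinuousAt φ ξ := hφ.self_of_nhds.continuousAt
  have hev := (hφ.and hT).and (hc.preimage_mem_nhds ((Λ.box i).open_source.mem_nhds hx))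
  obtain ⟨ε, hε, hball⟩ := Metric.eventually_nhds_iff_ball.1 hev
  have hd : ∀ ζ ∈ ball ξ ε, DifferentiableAt ℂ (fun ζ => (Λ.box i (φ ζ)).1) ζ := by
    intro ζ hζ
    obtain ⟨⟨h1, h2⟩, h3⟩ := hball ζ hζ
    obtain ⟨l, -, hl, -⟩ := box_deriv F κ Λ hΛ i h1 h2 h3
    exact hl.differentiableAt
  have hconst : ∀ ζ ∈ ball ξ ε, (Λ.box i (φ ζ)).2 = (Λ.box i (φ ξ)).2 := by
    intro ζ hζ
    refine (convex_ball ξ ε).is_const_of_fderivWithin_eq_zero (𝕜 := ℝ)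
      (f := fun ζ => (Λ.box i (φ ζ)).2) ?_ ?_ hζ (mem_ball_self hε)
    · intro w hw
      obtain ⟨⟨h1, h2⟩, h3⟩ := hball w hw
      obtain ⟨l, -, -, hl⟩ := box_deriv F κ Λ hΛ i h1 h2 h3
      exact hl.differentiableAt.differentiableWithinAt
    · intro w hw
      obtain ⟨⟨h1, h2⟩, h3⟩ := hball w hw
      obtain ⟨l, -, -, hl⟩ := box_deriv F κ Λ hΛ i h1 h2 h3
      rw [fderivWithin_of_isOpen isOpen_ball hw, hl.fderiv]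
  refine ⟨(DifferentiableOn.analyticAt (s := ball ξ ε)
    (fun ζ hζ => (hd ζ hζ).differentiableWithinAt) (isOpen_ball.mem_nhds (mem_ball_self hε))), ?_⟩
  filter_upwards [isOpen_ball.mem_nhds (mem_ball_self hε)] with ζ hζ
  obtain ⟨⟨h1, h2⟩, h3⟩ := hball ζ hζ
  obtain ⟨l, hl, hl', -⟩ := box_deriv F κ Λ hΛ i h1 h2 h3
  refine ⟨h3, hconst ζ hζ, ?_⟩
  rw [hl'.deriv, hl, hconst ζ hζ]

/-- the pulled back metric density -/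
noncomputable def sig (κ : Form11 E M) (φ : ℂ → M) (ξ : ℂ) : ℝ :=
  (ev κ.1 (φ ξ) (md φ ξ) (md φ ξ)).re

omit [IsManifold 𝓘(ℂ, E) ω M] in
lemma ev_smul_self (θ : SesqField E M) (x : M) (c : ℂ) (v : E) :
    (ev θ x (c • v) (c • v)) = (‖c‖ ^ 2 : ℝ) * ev θ x v v := by
  rw [ev_smul_left, ev_smul_right, ← mul_assoc, Complex.mul_conj, Complex.normSq_eq_norm_sq]

omit [IsManifold 𝓘(ℂ, E) ω M] in
lemma plaque_sig (F : SingFoliation E M) (κ : Form11 E M)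
    {m : ℕ} (Λ : Lam M (Fin m → ℂ)) (hΛ : GoodBoxes F κ Λ) (i : Λ.ι) {t : Fin m → ℂ}
    (ht : t ∈ Λ.W i) {z : ℂ} (hz : z ∈ ball (0 : ℂ) 1) :
    Λ.ρ i (z, t) = sig κ (fun z => (Λ.box i).symm (z, t)) z :=
  (hΛ.plaque i t ht z hz).2.2.2

theorem isDisc_of' (F : SingFoliation E M) (κ : Form11 E M)
    {m : ℕ} (Λ : Lam M (Fin m → ℂ)) (hΛ : GoodBoxes F κ Λ) (φ : ℂ → M) (hφ : F.IsLeafDisc φ)
    (hun : ∀ ξ ∈ ball (0 : ℂ) 1, (md φ ξ : E) ≠ 0) :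
    Λ.IsDisc φ (sig κ φ) := by
  refine ⟨fun ξ hξ => ?_⟩
  have hreg : φ ξ ∈ Λ.reg := by rw [hΛ.reg_eq]; exact hφ.notMem ξ hξ
  obtain ⟨i, hi⟩ := mem_iUnion.1 hreg
  have hnb : ball (0 : ℂ) 1 ∈ 𝓝 ξ := isOpen_ball.mem_nhds hξ
  have h1 : ∀ᶠ ζ in 𝓝 ξ, MDifferentiableAt 𝓘(ℂ, ℂ) 𝓘(ℂ, E) φ ζ := by
    filter_upwards [hnb] with ζ hζ
    exact (hφ.holo ζ hζ).mdifferentiableAt (isOpen_ball.mem_nhds hζ)
  have h2 : ∀ᶠ ζ in 𝓝 ξ, Tan F (φ ζ) (md φ ζ : E) := by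
    filter_upwards [hnb] with ζ hζ
    exact hφ.tangent ζ hζ
  obtain ⟨h3, h4⟩ := curve_in_plaque F κ Λ hΛ i h1 h2 hi
  have hp : Λ.box i (φ ξ) ∈ ball (0 : ℂ) 1 ×ˢ Λ.W i := by
    rw [← Λ.target_eq i]; exact (Λ.box i).map_source hi
  refine ⟨i, (Λ.box i (φ ξ)).2, hp.2, fun ζ => (Λ.box i (φ ζ)).1, h3, ?_, hp.1, ?_⟩
  · intro h0
    have := h4.self_of_nhds.2.2
    rw [h0, zero_smul] at this
    exact hun ξ hξ this
  · filter_upwards [h4] with ζ hζ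
    obtain ⟨h5, h6, h7⟩ := hζ
    have hpζ : Λ.box i (φ ζ) ∈ ball (0 : ℂ) 1 ×ˢ Λ.W i := by
      rw [← Λ.target_eq i]; exact (Λ.box i).map_source h5
    have h8 : (Λ.box i).symm ((Λ.box i (φ ζ)).1, (Λ.box i (φ ξ)).2) = φ ζ := by
      rw [← h6]
      exact (Λ.box i).left_inv h5
    refine ⟨h8.symm, ?_⟩
    rw [plaque_sig F κ Λ hΛ i hp.2 hpζ.1]
    unfold sig
    rw [h7, ev_smul_self]
    simp only [Complex.re_ofReal_mul]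
    rw [h8]
    ring

theorem isDisc_of (F : SingFoliation E M) (κ : Form11 E M) (_hκ : IsHermitianMetric κ)
    {m : ℕ} (Λ : Lam M (Fin m → ℂ)) (hΛ : GoodBoxes F κ Λ) (φ : ℂ → M) (hφ : F.IsLeafDisc φ)
    (hun : ∀ ξ ∈ ball (0 : ℂ) 1, mfderiv 𝓘(ℂ, ℂ) 𝓘(ℂ, E) φ ξ (1 : ℂ) ≠ 0) :
    Λ.IsDisc φ (fun ξ => (κ.1 (φ ξ) (mfderiv 𝓘(ℂ, ℂ) 𝓘(ℂ, E) φ ξ (1 : ℂ))
      (mfderiv 𝓘(ℂ, ℂ) 𝓘(ℂ, E) φ ξ (1 : ℂ))).re) :=
  isDisc_of' F κ Λ hΛ φ hφ hun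

omit [IsManifold 𝓘(ℂ, E) ω M] in
/-- a disc in a plaque is a leaf disc -/
lemma plaque_leafDisc (F : SingFoliation E M) (κ : Form11 E M)
    {m : ℕ} (Λ : Lam M (Fin m → ℂ)) (hΛ : GoodBoxes F κ Λ) (i : Λ.ι) {t : Fin m → ℂ}
    (ht : t ∈ Λ.W i) {z₀ : ℂ} {δ : ℝ} (hδ : 0 < δ) (hb : ball z₀ δ ⊆ ball 0 1) :
    F.IsLeafDisc (fun ζ => (Λ.box i).symm (z₀ + δ * ζ, t)) ∧ ∀ ζ ∈ ball (0 : ℂ) 1,
      (md (fun ζ => (Λ.box i).symm (z₀ + δ * ζ, t)) ζ : E) =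
        (δ : ℂ) • (md (fun z => (Λ.box i).symm (z, t)) (z₀ + δ * ζ) : E) := by
  have hin : ∀ ζ ∈ ball (0 : ℂ) 1, z₀ + δ * ζ ∈ ball (0 : ℂ) 1 := by
    intro ζ hζ
    apply hb
    rw [mem_ball, dist_eq_norm, add_sub_cancel_left, norm_mul, Complex.norm_real,
      Real.norm_of_nonneg hδ.le]
    rw [mem_ball_zero_iff] at hζ
    nlinarith
  have hd : ∀ ζ : ℂ, HasDerivAt (fun ζ : ℂ => z₀ + δ * ζ) (δ : ℂ) ζ := by
    intro ζ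
    simpa using ((hasDerivAt_id ζ).const_mul (δ : ℂ)).const_add z₀
  have hm : ∀ ζ ∈ ball (0 : ℂ) 1, (md (fun ζ => (Λ.box i).symm (z₀ + δ * ζ, t)) ζ : E) =
        (δ : ℂ) • (md (fun z => (Λ.box i).symm (z, t)) (z₀ + δ * ζ) : E) := by
    intro ζ hζ
    have h1 := (hΛ.plaque i t ht _ (hin ζ hζ)).1
    have h2 := md_comp (g := fun ζ : ℂ => z₀ + δ * ζ) h1 (hd ζ).differentiableAt
    rw [(hd ζ).deriv] at h2
    exact h2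
  refine ⟨⟨?_, ?_, ?_⟩, hm⟩
  · intro ζ hζ
    have h1 := (hΛ.plaque i t ht _ (hin ζ hζ)).1
    exact (h1.comp ζ (hd ζ).differentiableAt.mdifferentiableAt).mdifferentiableWithinAt
  · intro ζ hζ
    have h1 : (Λ.box i).symm (z₀ + δ * ζ, t) ∈ Λ.reg :=
      mem_iUnion.2 ⟨i, (Λ.box i).map_target (by rw [Λ.target_eq]; exact ⟨hin ζ hζ, ht⟩)⟩
    rw [hΛ.reg_eq] at h1
    exact h1
  · intro ζ hζ
    have h1 : Tan F ((Λ.box i).symm (z₀ + δ * ζ, t))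
        (md (fun z => (Λ.box i).symm (z, t)) (z₀ + δ * ζ) : E) :=
      (hΛ.plaque i t ht _ (hin ζ hζ)).2.1
    have h2 := tan_smul F h1 (δ : ℂ)
    rw [← hm ζ hζ] at h2
    exact h2

theorem isUniv_of (F : SingFoliation E M) (κ : Form11 E M) (_hκ : IsHermitianMetric κ)
    {m : ℕ} (Λ : Lam M (Fin m → ℂ)) (hΛ : GoodBoxes F κ Λ) (φ : ℂ → M)
    (hφ : F.IsUniversalCovering φ) :
    Λ.IsUniv φ (fun ξ => (κ.1 (φ ξ) (mfderiv 𝓘(ℂ, ℂ) 𝓘(ℂ, E) φ ξ (1 : ℂ))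
      (mfderiv 𝓘(ℂ, ℂ) 𝓘(ℂ, E) φ ξ (1 : ℂ))).re) := by
  refine ⟨isDisc_of' F κ Λ hΛ φ hφ.toIsLeafDisc hφ.unramified, ?_⟩
  intro i t ht z₀ δ hδ hb ξ hξ hξ0
  obtain ⟨hψ, hψ'⟩ := plaque_leafDisc F κ Λ hΛ i ht hδ hb
  obtain ⟨h, hh, hmaps, h0, hlift⟩ := hφ.lift _ hψ ξ hξ (by simpa using hξ0.symm)
  refine ⟨h, hh, hmaps, h0, fun ζ hζ => ⟨hlift ζ hζ, ?_⟩⟩
  have hin : z₀ + δ * ζ ∈ ball (0 : ℂ) 1 := by
    apply hb
    rw [mem_ball, dist_eq_norm, add_sub_cancel_left, norm_mul, Complex.norm_real,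
      Real.norm_of_nonneg hδ.le]
    rw [mem_ball_zero_iff] at hζ
    nlinarith
  change sig κ φ (h ζ) * ‖deriv h ζ‖ ^ 2 = _
  rw [plaque_sig F κ Λ hΛ i ht hin]
  have e1 : (md (fun z => φ (h z)) ζ : E) = deriv h ζ • (md φ (h ζ) : E) :=
    md_comp ((hφ.holo _ (hmaps hζ)).mdifferentiableAt (isOpen_ball.mem_nhds (hmaps hζ)))
      ((hh ζ hζ).differentiableAt (isOpen_ball.mem_nhds hζ))
  have e2 : (md (fun z => φ (h z)) ζ : E) =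
      md (fun ζ => (Λ.box i).symm (z₀ + δ * ζ, t)) ζ := by
    refine md_congr ?_
    filter_upwards [isOpen_ball.mem_nhds hζ] with z hz
    exact hlift z hz
  have e3 : deriv h ζ • (md φ (h ζ) : E) =
      (δ : ℂ) • (md (fun z => (Λ.box i).symm (z, t)) (z₀ + δ * ζ) : E) := by
    rw [← e1, e2, hψ' ζ hζ]
  have e4 := congrArg (fun v : E => (ev κ.1 (φ (h ζ)) v v).re) e3
  rw [ev_smul_self, ev_smul_self, Complex.re_ofReal_mul, Complex.re_ofReal_mul,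
    hlift ζ hζ] at e4
  unfold sig
  rw [hlift ζ hζ]
  simp only [Complex.norm_real, Real.norm_eq_abs, sq_abs] at e4
  linarith

end Pool.Agent.H82.Nev
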