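import Pool.Agent.H45.Nev.Base3

/-!
# Existence of `dd^c u` as a smooth (1,1)-form
-/

open MeasureTheory Set Metric Filter Topology
open scoped ContDiff Manifold

namespace Pool.Agent.H82.Nev
open Pool.Agent.H45.Nev

section form
variable {E : Type*} [NormedAddCommGroup E] [NormedSpace ℂ E]

/-- the sesquilinear form attached to a real bilinear form -/
noncomputable def levForm (B : E →L[ℝ] E →L[ℝ] ℝ) : E →ₗ[ℂ] E →ₗ⋆[ℂ] ℂ :=
  LinearMap.mk₂'ₛₗ (RingHom.id ℂ) (starRingEnd ℂ)
    (fun v w => (1 / (2 * Real.pi) : ℝ) * (((B v w + B (Complex.I • v) (Complex.I • w) : ℝ) : ℂ) +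
      Complex.I * ((B v (Complex.I • w) - B (Complex.I • v) w : ℝ) : ℂ)))
    (by
      intro v v' w
      simp only [smul_add, map_add, add_apply]
      push_cast
      ring)
    (by
      intro c v w
      have hc : c • v = (c.re : ℝ) • v + (c.im : ℝ) • (Complex.I • v) := by
        have := Complex.re_add_im c
        conv_lhs => rw [← this]
        rw [add_smul, mul_smul]
        simp
      have hIc : Complex.I • (c • v) = (c.re : ℝ) • (Complex.I • v) - (c.im : ℝ) • v := by
        rw [hc, smul_add, smul_comm Complex.I (c.re : ℝ) v, smul_comm Complex.I (c.im : ℝ),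
          smul_smul, Complex.I_mul_I]
        simp [sub_eq_add_neg]
      rw [hIc, hc]
      simp only [map_add, map_sub, map_smul, add_apply, sub_apply, smul_apply, smul_eq_mul,
        RingHom.id_apply]
      apply Complex.ext
      · simp
        ring
      · simp
        ring)
    (by
      intro v w w'
      simp only [smul_add, map_add]
      push_cast
      ring)
    (by
      intro c v w
      have hc : c • w = (c.re : ℝ) • w + (c.im : ℝ) • (Complex.I • w) := by
        have := Complex.re_add_im c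
        conv_lhs => rw [← this]
        rw [add_smul, mul_smul]
        simp
      have hIc : Complex.I • (c • w) = (c.re : ℝ) • (Complex.I • w) - (c.im : ℝ) • w := by
        rw [hc, smul_add, smul_comm Complex.I (c.re : ℝ) w, smul_comm Complex.I (c.im : ℝ),
          smul_smul, Complex.I_mul_I]
        simp [sub_eq_add_neg]
      rw [hIc, hc]
      simp only [map_add, map_sub, map_smul, smul_eq_mul]
      apply Complex.ext
      · simp
        ring
      · simp
        ring)

lemma levForm_apply (B : E →L[ℝ] E →L[ℝ] ℝ) (v w : E) :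
    levForm B v w = (1 / (2 * Real.pi) : ℝ) *
      (((B v w + B (Complex.I • v) (Complex.I • w) : ℝ) : ℂ) +
      Complex.I * ((B v (Complex.I • w) - B (Complex.I • v) w : ℝ) : ℂ)) := rfl

end form

variable {E : Type*} [NormedAddCommGroup E] [NormedSpace ℂ E]
  {M : Type*} [TopologicalSpace M] [ChartedSpace E M]

/-- the field of sesquilinear forms `dd^c u` -/
noncomputable def ddcField (u : M → ℝ) : SesqField E M := fun x =>
  levForm (E := E) (fderiv ℝ (fderiv ℝ (u ∘ (chartAt E x).symm)) (chartAt E x x))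

lemma ddcField_apply (u : M → ℝ) (x : M) (v w : TangentSpace 𝓘(ℂ, E) x) :
    ddcField (E := E) u x v w =
      (1 / (2 * Real.pi) : ℝ) * ((mLevS u x v w : ℝ) + Complex.I * (mLevA u x v w : ℝ)) := rfl

variable [IsManifold 𝓘(ℂ, E) ω M]

lemma inChart_ddcField {u : M → ℝ} (hu : IsSmooth E u) {e : OpenPartialHomeomorph M E}
    (he : e ∈ IsManifold.maximalAtlas 𝓘(ℂ, E) ω M) {y : E} (hy : y ∈ e.target) (v w : E) :
    inChart e (ddcField u) v w y =
      (1 / (2 * Real.pi) : ℝ) * ((levS (u ∘ e.symm) y v w : ℝ) +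
        Complex.I * (levA (u ∘ e.symm) y v w : ℝ)) := by
  have hx : ContDiffAt ℝ 2 (u ∘ (chartAt E (e.symm y)).symm) (chartAt E (e.symm y) (e.symm y)) :=
    (hu.contDiffAt_symm (chartAt_mem_max _) (mem_chart_target E _)).of_le
      (WithTop.coe_le_coe.mpr le_top)
  rw [mLevS_chart he hy hx, mLevA_chart he hy hx]
  rfl

theorem exists_ddc (u : M → ℝ) (hu : IsSmooth E u) :
    ∃ θ : Form11 E M, IsDdc u θ ∧ ∀ (x : M) (v : TangentSpace 𝓘(ℂ, E) x),
      θ.1 x v v = (1 / (2 * Real.pi) * mLevS u x v v : ℝ) := by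
  refine ⟨⟨ddcField u, ?_⟩, ?_, ?_⟩
  · intro e he v w
    have hsm := hu.chart he
    have h1 : ContDiffOn ℝ ∞ (fderiv ℝ (u ∘ e.symm)) e.target :=
      hsm.fderiv_of_isOpen e.open_target (by simp)
    have h2 : ContDiffOn ℝ ∞ (fderiv ℝ (fderiv ℝ (u ∘ e.symm))) e.target :=
      h1.fderiv_of_isOpen e.open_target (by simp)
    have h3 : ∀ a b : E, ContDiffOn ℝ ∞
        (fun y => fderiv ℝ (fderiv ℝ (u ∘ e.symm)) y a b) e.target := fun a b =>
      (h2.clm_apply contDiffOn_const).clm_apply contDiffOn_const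
    have h4 : ContDiffOn ℝ ∞ (fun y => ((1 / (2 * Real.pi) : ℝ) : ℂ) *
        ((levS (u ∘ e.symm) y v w : ℝ) + Complex.I * (levA (u ∘ e.symm) y v w : ℝ))) e.target := by
      have h5 : ContDiffOn ℝ ∞ (fun y => ((levS (u ∘ e.symm) y v w : ℝ) : ℂ)) e.target :=
        Complex.ofRealCLM.contDiff.comp_contDiffOn ((h3 v w).add (h3 _ _))
      have h6 : ContDiffOn ℝ ∞ (fun y => ((levA (u ∘ e.symm) y v w : ℝ) : ℂ)) e.target :=
        Complex.ofRealCLM.contDiff.comp_contDiffOn ((h3 _ _).sub (h3 _ _))
      exact contDiffOn_const.mul (h5.add (contDiffOn_const.mul h6))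
    exact h4.congr fun y hy => inChart_ddcField hu he hy v w
  · intro e he y hy v w
    have := inChart_ddcField hu he hy v w
    simp only at this ⊢
    rw [this]
    unfold levS levA
    push_cast
    ring
  · intro x v
    have hx : ContDiffAt ℝ 2 (u ∘ (chartAt E x).symm) (chartAt E x x) :=
      (hu.contDiffAt_symm (chartAt_mem_max _) (mem_chart_target E _)).of_le
        (WithTop.coe_le_coe.mpr le_top)
    have h0 : mLevA u x v v = 0 := levA_self hx _
    simp only
    rw [ddcField_apply, h0]
    push_cast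
    ring

end Pool.Agent.H82.Nev
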